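import Pool.Agent.Run7.h420.TM.Stm

/-!
Project TM, pieces ERG, ERGF and ORB.
-/

set_option autoImplicit false

namespace Pool.Agent.Run7.h420.TM

open MeasureTheory Filter Topology Set

theorem t_ERG : S_ERG := by
  intro G X _ _ _ μ N A hmix hN hA hinv
  haveI := hmix.prob
  have h1 : ∀ g ∈ N, μ.real (A ∩ (fun x : X => g • x) ⁻¹' A) = μ.real A := by
    intro g hg
    apply measureReal_congr
    filter_upwards [hinv g hg] with x hx
    apply propext
    constructor
    · intro h
      exact h.1
    · intro h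
      exact ⟨h, hx.mpr h⟩
  have h2 : ∃ᶠ g : G in cofinite, μ.real (A ∩ (fun x : X => g • x) ⁻¹' A) = μ.real A := by
    rw [frequently_cofinite_iff_infinite]
    exact hN.mono (fun g hg => h1 g hg)
  have h3 : μ.real A * μ.real A = μ.real A :=
    tendsto_nhds_unique_of_frequently_eq (hmix.mix A A hA hA) tendsto_const_nhds h2
  have h4 : μ.real A = 0 ∨ μ.real A = 1 := by
    rcases eq_or_ne (μ.real A) 0 with h | h
    · exact Or.inl h
    · right
      have := mul_left_cancel₀ h (h3.trans (mul_one _).symm)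
      exact this
  rcases h4 with h | h
  · left
    exact (measureReal_eq_zero_iff).mp h
  · right
    rw [Measure.real] at h
    have h5 : μ A ≠ ⊤ := measure_ne_top μ A
    rw [← ENNReal.toReal_one] at h
    exact (ENNReal.toReal_eq_toReal_iff' h5 ENNReal.one_ne_top).mp h

theorem t_ERGF : S_ERG → S_ERGF := by
  intro hE G X Y _ _ _ _ _ μ N f hmix hN hf hinv
  haveI := hmix.prob
  haveI hXne : Nonempty X := by
    by_contra h
    rw [not_nonempty_iff] at h
    have := measure_univ (μ := μ)
    rw [Set.univ_eq_empty_iff.mpr h, measure_empty] at this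
    exact zero_ne_one this
  haveI : Nonempty Y := hXne.map f
  have key := Filter.exists_eventuallyEq_const_of_forall_separating (l := ae μ) (f := f)
    (p := MeasurableSet) (fun U hU => ?_)
  · obtain ⟨y, hy⟩ := key
    exact ⟨y, hy⟩
  · have h := hE G X μ N (f ⁻¹' U) hmix hN (hf hU) (fun g hg => by
      filter_upwards [hinv g hg] with x hx
      rw [Set.mem_preimage, Set.mem_preimage, hx])
    rcases h with h | h
    · right
      rw [ae_iff]
      have : {a | ¬ f a ∉ U} = f ⁻¹' U := by
        ext a
        simp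
      rw [this]
      exact h
    · left
      rw [ae_iff]
      have h2 : {a | ¬ f a ∈ U} = (f ⁻¹' U)ᶜ := rfl
      rw [h2, prob_compl_eq_zero_iff (hf hU)]
      exact h

theorem t_ORB : S_ORB := by
  intro G X Y _ _ _ _ _ _ μ f X0 hS y₀ hae
  haveI := hS.mix.prob
  set S : Set X := {x | x ∈ X0 ∧ f x ∈ MulAction.orbit G y₀} with hSdef
  have hX0 : ∀ᵐ x ∂μ, x ∈ X0 := by
    rw [ae_iff]
    exact hS.X0null
  have hSae : ∀ᵐ x ∂μ, x ∈ S := by
    filter_upwards [hX0, hae] with x h1 h2
    exact ⟨h1, h2⟩
  have hScompl : μ Sᶜ = 0 := hSae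
  have hSnull : μ S = 0 := by
    rcases S.eq_empty_or_nonempty with h | ⟨x₁, hx₁⟩
    · rw [h, measure_empty]
    · apply hS.null
      apply Set.Countable.mono (s₂ := MulAction.orbit G x₁)
      · intro x hx
        rw [hS.red x₁ hx₁.1 x hx.1]
        rw [MulAction.orbit_eq_iff.mpr hx₁.2]
        exact hx.2
      · exact Set.countable_range _
  have h1 : μ (S ∪ Sᶜ) ≤ μ S + μ Sᶜ := measure_union_le _ _
  rw [hSnull, hScompl, Set.union_compl_self, measure_univ, add_zero] at h1
  exact absurd h1 (by simp)

end Pool.Agent.Run7.h420.TM
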