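import Pool.Agent.Run7.h420.TM.Stm

/-!
Project TM, pieces TAN, PROBS, QPRES.
-/

set_option autoImplicit false

namespace Pool.Agent.Run7.h420.TM

open MeasureTheory Filter Topology Set

theorem h923_PROBS : S_PROBS := by
  constructor
  · refine ⟨?_⟩
    rw [UnitAddCircle.measure_univ]
  · refine ⟨?_⟩
    rw [Measure.restrict_apply_univ, Real.volume_Ioc]
    norm_num

theorem h923_TAN : S_TAN := by
  intro Ω ι L _ _ P _ l D c hc hle hlim
  have h1 := tendsto_tsum_of_dominated_convergence (𝓕 := l) (f := fun i k => P.real (D i k))
    (g := fun _ : L => (0 : ℝ)) (bound := c) hc hlim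
    (Filter.Eventually.of_forall (fun i k => by
      rw [Real.norm_eq_abs, abs_of_nonneg measureReal_nonneg]
      exact hle i k))
  rw [tsum_zero] at h1
  refine squeeze_zero (fun i => measureReal_nonneg) (fun i => ?_) h1
  have hsum : Summable (fun k => P.real (D i k)) :=
    Summable.of_nonneg_of_le (fun k => measureReal_nonneg) (hle i) hc
  have h2 : P (⋃ k, D i k) ≤ ∑' k, P (D i k) := measure_iUnion_le _
  have h3 : ∑' k, P (D i k) = ENNReal.ofReal (∑' k, P.real (D i k)) := by
    rw [ENNReal.ofReal_tsum_of_nonneg (fun k => measureReal_nonneg) hsum]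
    congr 1
    funext k
    rw [Measure.real, ENNReal.ofReal_toReal (measure_ne_top _ _)]
  rw [h3] at h2
  exact ENNReal.toReal_le_of_le_ofReal (tsum_nonneg (fun k => measureReal_nonneg)) h2

theorem h923_SKEW : S_SKEW := by
  intro W L _ _ _ _ _ ν T a b hν hT ha hb
  have ha' : Measurable a := measurable_to_countable' ha
  have hb' : Measurable b := measurable_to_countable' hb
  refine hT.skew_product (g := fun x k => a x * k * (b x)⁻¹) ?_ (Filter.Eventually.of_forall ?_)
  · apply measurable_from_prod_countable_left
    intro k
    have h1 : Measurable (fun q : L × L => q.1 * k * q.2⁻¹) := Measurable.of_discrete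
    exact h1.comp (ha'.prodMk hb')
  · intro x
    have hbij : Function.Bijective (fun k : L => a x * k * (b x)⁻¹) :=
      ((Equiv.mulLeft (a x)).trans (Equiv.mulRight (b x)⁻¹)).bijective
    ext s hs
    rw [Measure.map_apply Measurable.of_discrete hs, Measure.count_apply hs,
      Measure.count_apply (MeasurableSet.of_discrete)]
    rw [Set.encard_preimage_of_bijective hbij]

theorem h923_NULL : S_PROBS → S_NULL := by
  intro hPR G _ C hC
  have hp1 : IsProbabilityMeasure (volume : Measure UnitAddCircle) := hPR.1
  rw [← Set.biUnion_of_singleton C]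
  rw [measure_biUnion_null_iff hC]
  intro x _
  have h1 := measurePreserving_eval_infinitePi (fun _ : G => (volume : Measure UnitAddCircle)) 1
  have h2 : (muX G) ((fun z : XX G => z 1) ⁻¹' {x 1}) = 0 := by
    have h3 := h1.measure_preimage (s := {x 1}) (measurableSet_singleton _).nullMeasurableSet
    refine h3.trans ?_
    have h4 := AddCircle.volume_closedBall (T := (1 : ℝ)) (x := x 1) 0
    rw [Metric.closedBall_zero, mul_zero, min_eq_right zero_le_one, ENNReal.ofReal_zero] at h4
    exact h4
  exact measure_mono_null (by intro z hz; rw [Set.mem_singleton_iff] at hz; rw [hz]; rfl) h2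

theorem h923_QPRES : S_PROBS → S_QPRES := by
  intro hPR G _ _ t
  obtain ⟨hp1, hp2⟩ := hPR
  have hX : IsProbabilityMeasure (muX G) :=
    inferInstanceAs (IsProbabilityMeasure (Measure.infinitePi
      (fun _ : G => (volume : Measure UnitAddCircle))))
  have hY : IsProbabilityMeasure (muY G) :=
    inferInstanceAs (IsProbabilityMeasure (Measure.infinitePi
      (fun _ : G => (volume : Measure ℝ).restrict (Set.Ioc (0 : ℝ) 1))))
  have hmap : ∀ y : YY G, Measure.map (fun (x : XX G) => (fun h : G => x h +
      ((t * y h : ℝ) : UnitAddCircle) : XX G)) (muX G) = muX G := by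
    intro y
    have h1 := Measure.infinitePi_map_pi (μ := fun _ : G => (volume : Measure UnitAddCircle))
      (f := fun (h : G) (z : UnitAddCircle) => z + ((t * y h : ℝ) : UnitAddCircle))
      (fun h => measurable_add_const _)
    have h2 : ∀ h : G, (volume : Measure UnitAddCircle).map
        (fun z => z + ((t * y h : ℝ) : UnitAddCircle)) = volume := by
      intro h
      exact map_add_right_eq_self _ _
    simp only [h2] at h1
    exact h1
  have hmeas : Measurable (Function.uncurry (fun (y : YY G) (x : XX G) =>
      (fun h : G => x h + ((t * y h : ℝ) : UnitAddCircle) : XX G))) := by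
    apply measurable_pi_lambda
    intro h
    have e1 : Measurable (fun p : YY G × XX G => p.2 h) :=
      (measurable_pi_apply h).comp measurable_snd
    have e2 : Measurable (fun p : YY G × XX G => p.1 h) :=
      (measurable_pi_apply h).comp measurable_fst
    have e3 : Measurable (fun r : ℝ => (r : UnitAddCircle)) :=
      AddCircle.measurable_mk'
    exact e1.add (e3.comp (e2.const_mul t))
  have h3 := (MeasurePreserving.id (muY G)).skew_product (μc := muX G) (μd := muX G) hmeas
    (Filter.Eventually.of_forall hmap)
  have h4 : MeasurePreserving (Prod.snd : YY G × XX G → XX G) ((muY G).prod (muX G)) (muX G) :=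
    measurePreserving_snd
  have h5 : MeasurePreserving (Prod.swap : XX G × YY G → YY G × XX G) ((muX G).prod (muY G))
    ((muY G).prod (muX G)) := Measure.measurePreserving_swap
  exact (h4.comp h3).comp h5

end Pool.Agent.Run7.h420.TM
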